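import Pool.Agent.H34.PS.All

/-!
MP_669880_nt: sums of two non-square powerful numbers which are not the sum of a positive square and
a non-square powerful number. For every non-square `β` which is a sum of two squares (for example
`β = 2, 5, 8, 10, 13`) the number `β^3 (y^2 + w^2)` is of this kind for almost all pairs `(y, w)`.
-/

set_option autoImplicit false

open Finset Filter Topology

namespace Pool.Agent.Results.MP_669880_nt.AlmostAllPairs

/-- powerful numbers -/
def Powerful (m : ℕ) : Prop := 0 < m ∧ ∀ p : ℕ, p.Prime → p ∣ m → p ^ 2 ∣ m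

/-- non-square powerful numbers -/
def NonSquarePowerful (m : ℕ) : Prop := Powerful m ∧ ¬ IsSquare m

/-- the set `A` of the problem: sums of two non-square powerful numbers -/
def A : Set ℕ := {n | ∃ a b : ℕ, NonSquarePowerful a ∧ NonSquarePowerful b ∧ n = a + b}

/-- the set `B` of the problem: sums of a positive square and a non-square powerful number -/
def B : Set ℕ := {n | ∃ x c : ℕ, 1 ≤ x ∧ NonSquarePowerful c ∧ n = x ^ 2 + c}

open Classical in
/-- For every non-square `β` which is a sum of two squares the proportion of the pairs `(y, w)` in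
`{1, …, Y}²` with `β^3 (y^2 + w^2)` in `A` and not in `B` tends to 1. -/
theorem result (β s t : ℕ) (hβ : ¬ IsSquare β) (hst : β = s ^ 2 + t ^ 2) :
    Tendsto (fun Y : ℕ => (((Icc 1 Y ×ˢ Icc 1 Y).filter fun a : ℕ × ℕ =>
      β ^ 3 * (a.1 ^ 2 + a.2 ^ 2) ∈ A ∧ β ^ 3 * (a.1 ^ 2 + a.2 ^ 2) ∉ B).card : ℝ) /
        (Y : ℝ) ^ 2) atTop (𝓝 1) :=
  Pool.Agent.H34.PS.main.1 β s t hβ hst

end Pool.Agent.Results.MP_669880_nt.AlmostAllPairs
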