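import Pool.Agent.H34.PS.All

/-!
MP_669880_nt: there are at least `c X / log X` numbers up to `X` which are a sum of two non-square
powerful numbers and are not a sum of a positive square and a non-square powerful number.
-/

set_option autoImplicit false

open Finset

namespace Pool.Agent.Results.MP_669880_nt.CountingBound

/-- powerful numbers -/
def Powerful (m : ℕ) : Prop := 0 < m ∧ ∀ p : ℕ, p.Prime → p ∣ m → p ^ 2 ∣ m

/-- non-square powerful numbers -/
def NonSquarePowerful (m : ℕ) : Prop := Powerful m ∧ ¬ IsSquare m

/-- the set `A` of the problem: sums of two non-square powerful numbers -/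
def A : Set ℕ := {n | ∃ a b : ℕ, NonSquarePowerful a ∧ NonSquarePowerful b ∧ n = a + b}

/-- the set `B` of the problem: sums of a positive square and a non-square powerful number -/
def B : Set ℕ := {n | ∃ x c : ℕ, 1 ≤ x ∧ NonSquarePowerful c ∧ n = x ^ 2 + c}

open Classical in
/-- The number of elements of `A` not in `B` up to `X` is at least `c X / log X` for large `X`. -/
theorem result : ∃ c : ℝ, 0 < c ∧ ∃ X₀ : ℕ, ∀ X ≥ X₀, c * (X : ℝ) / Real.log X ≤
    (((Icc 1 X).filter fun n : ℕ => n ∈ A ∧ n ∉ B).card : ℝ) :=
  Pool.Agent.H34.PS.main.2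

end Pool.Agent.Results.MP_669880_nt.CountingBound
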